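import Pool.Agent.JacT.Section

/-!
# All realisations in the tridiagonal pattern, with their analytic dependence (MP_e00e09_al)

`InT B` says that the real matrix `B` of size `n = m + 2` lies in the set of the problem (tridiagonal, superdiagonal
positive, subdiagonal negative, diagonal `(+, 0, …, 0, -)`), `weight B` is the absolute value of the product of its two
corner entries and of all its off-diagonal entries, and `cx B w` is the complex matrix `B + i diag (w)`.

For every complex monic polynomial of degree `n` with lower coefficients `q` and every `κ > 0` there is, up to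
similarity by positive diagonal matrices, exactly one pair `(B, w)` with weight `κ` and this characteristic polynomial;
it can be chosen to depend real-analytically on `(q, κ)`; for real `q` the vector `w` vanishes.
-/

set_option autoImplicit false

namespace Pool.Agent.Results.MP_e00e09_al.AnalyticSection

open Polynomial Pool.Agent.JacT

theorem result (m : ℕ) :
    ∃ (A : (Fin (m + 2) → ℂ) × ℝ → Matrix (Fin (m + 2)) (Fin (m + 2)) ℝ)
      (v : (Fin (m + 2) → ℂ) × ℝ → Fin (m + 2) → ℝ),
      (∀ i j, AnalyticOnNhd ℝ (fun y => A y i j) {y | 0 < y.2}) ∧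
      (∀ i, AnalyticOnNhd ℝ (fun y => v y i) {y | 0 < y.2}) ∧
      ∀ (q : Fin (m + 2) → ℂ) (κ : ℝ), 0 < κ →
        InT (A (q, κ)) ∧
        (∀ (B : Matrix (Fin (m + 2)) (Fin (m + 2)) ℝ) (w : Fin (m + 2) → ℝ),
          (InT B ∧ weight B = κ ∧
            (cx B w).charpoly = X ^ (m + 2) + ∑ i : Fin (m + 2), C (q i) * X ^ (i : ℕ)) ↔
          (w = v (q, κ) ∧ ∃ d : Fin (m + 2) → ℝ, (∀ i, 0 < d i) ∧
            ∀ i j, B i j = d i * A (q, κ) i j / d j)) ∧
        (∀ r : Fin (m + 2) → ℝ, q = (fun i => (r i : ℂ)) → v (q, κ) = 0 ∧
          (A (q, κ)).charpoly = X ^ (m + 2) + ∑ i : Fin (m + 2), C (r i) * X ^ (i : ℕ)) :=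
  section_main m

end Pool.Agent.Results.MP_e00e09_al.AnalyticSection
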