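import Pool.Agent.JacT.CornerMain

/-!
# The possible values of the first diagonal entry (MP_e00e09_al)

`InT B` says that the real matrix `B` of size `n = m + 2` lies in the set of the problem (tridiagonal, superdiagonal
positive, subdiagonal negative, diagonal `(+, 0, …, 0, -)`), and `cx B w` is the complex matrix `B + i diag (w)`.

A complex monic polynomial `P` of degree `n` is the characteristic polynomial of some `cx B w` with first diagonal entry
`a` of `B` if and only if `a` exceeds the sum of the positive real parts of the roots of `P`, and then `B` and `w` are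
unique up to similarity by positive diagonal matrices; for real `P` the vector `w` vanishes, so that `B` itself has the
characteristic polynomial `P`.
-/

set_option autoImplicit false

namespace Pool.Agent.Results.MP_e00e09_al.CornerEntry

open Polynomial Pool.Agent.JacT

theorem result (m : ℕ) (P : ℂ[X]) (hP : P.Monic) (hd : P.natDegree = m + 2) (a : ℝ) :
    ((∃ (A : Matrix (Fin (m + 2)) (Fin (m + 2)) ℝ) (v : Fin (m + 2) → ℝ),
        InT A ∧ A 0 0 = a ∧ (cx A v).charpoly = P) ↔
      (P.roots.map fun r => max r.re 0).sum < a) ∧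
    ∀ (A : Matrix (Fin (m + 2)) (Fin (m + 2)) ℝ) (v : Fin (m + 2) → ℝ),
      InT A → A 0 0 = a → (cx A v).charpoly = P →
      (∀ (B : Matrix (Fin (m + 2)) (Fin (m + 2)) ℝ) (w : Fin (m + 2) → ℝ),
        (InT B ∧ B 0 0 = a ∧ (cx B w).charpoly = P) ↔
          (w = v ∧ ∃ d : Fin (m + 2) → ℝ, (∀ i, 0 < d i) ∧
            ∀ i j, B i j = d i * A i j / d j)) ∧
      (∀ p : ℝ[X], P = p.map (algebraMap ℝ ℂ) → v = 0 ∧ A.charpoly = p) :=
  corner_main m P hP hd a

end Pool.Agent.Results.MP_e00e09_al.CornerEntry
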